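import Pool.Agent.H52.CD.Fin
import Pool.Agent.H75.CD.H3

/-!
# Artin groups and the Farrell-Jones conjecture for A-theory: finite and affine types

Let `C` be a class of groups with the inheritance properties `Inherits` and the extension property `Extension` (preimages
of virtually cyclic subgroups), which contains the groups that act properly and cocompactly on simply connected
two-dimensional Euclidean complexes of nonpositive curvature (`Cat2`), the groups `GL_n(ℤ)` and the groups `F_n ⋊ ℤ` for all
automorphisms of the free groups `F_n` of finite rank. The class of the groups satisfying the Farrell-Jones conjecture for
A-theory with coefficients and finite wreath products is such a class. The Artin group `Art M` has the generators `σ_i`, `i` in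
an arbitrary set `B`, and the relations `σ_i σ_j σ_i ⋯ = σ_j σ_i σ_j ⋯` (`M i j` factors) for the pairs with `M i j ≠ 0`. A set of
generators is irreducible if it is not the union of two nonempty disjoint sets with labels `2` between them. A triple is
spherical if the sum of the reciprocals of its labels is larger than one.
We prove that `Art M` is in `C` if for every finite irreducible set `K` of generators without label `0`, the Artin group of `K` is
in `C`, or every irreducible subset `T` of `K` with at least three elements, all of whose triples are spherical, is of finite or
affine type, that is, the matrix of the numbers `- cos (π / M i j)`, `i, j ∈ T`, is positive semidefinite, and has its Artin group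
in `C` if it is one of the nine exceptional diagrams `E_6`, `E_7`, `E_8`, `F_4`, `H_4`, affine `E_6`, `E_7`, `E_8`, `F_4`. So nothing
is asked about Artin groups if all these `T` are classical diagrams (`A_n`, `B_n`, `D_n`, affine `A_n`, `B_n`, `C_n`, `D_n`) or `H_3`.

Proof. (1) Reduction to finite `B` and labels different from `0`, see the chapters `H75/INF`: induction over the pairs with label
`0`; `A = Art M` acts on a tree, by the extension property it suffices to consider the preimages of the cyclic subgroups of the
Coxeter group `W`, and a homomorphism to a group in `C` which is injective on the stabilisers is constructed from the
cocycles of Godelle and Paris; direct products for the irreducible components.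

(2) The step (`H65/LR/Stp`). Let `a, b, c` be three generators and `1 / m_a + 1 / m_b + 1 / m_c ≤ 1` such that in the graph of the
cosets of `A_(B - a - b)` and `A_(B - a - c)` in `A_(B - a)` closed paths have length at least `2 m_a`, and similarly for `m_b`, `m_c`.
Then `A` acts on the simply connected complex of the cosets of `A_(B - a)`, `A_(B - b)`, `A_(B - c)`, with a metric of nonpositive
curvature. If all proper parabolic subgroups are in `C` then `A` is in `C`: for a preimage `P` of a cyclic subgroup `⟨w⟩` of `W`
a homomorphism from `P` to a group in `C` is constructed which is injective on given stabilisers (`H71/SM`; the set of the `j` with
`w^j α` in a coordinate subspace is, up to a finite set, a union of residue classes, by the method of Skolem, Mahler and Lech), and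
the quotient of the complex by a suitable normal subgroup and the descending links give the result (`H52/T3`).

(3) Polygons. Let `w(s, t) = 1 / m'`, `m'` the label of `s`, `t`, with `5` replaced by `4`. A vertex of type `t` is a coset of
`A_(S - t)` in `A_S`. POLY(S): in every closed chain of at least four vertices, consecutive ones of different types and with
common elements, with sum of the weights less than `2`, there are three consecutive vertices `P, Q, R` such that `P` and `R`
have common elements. For chains of the types `b, c, b, c, …` this is the girth condition needed in (2), for chains of length four
it says that they have a diagonal. We prove POLY(S) for all subsets of `K`, by induction (`H54/AF`).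

(4) The step for polygons (`H52/VK`). Let `p, q, r` be a triple in `S` which is not spherical, so that the sum of its weights is
at most one. The complex `X` of the cosets of `A_(S - p)`, `A_(S - q)`, `A_(S - r)` is simply connected, the link of a vertex
of type `p` is a part of the complex of `A_(S - p)`. The vertices of `X` next to the members of a closed chain form connected sets; a
closed walk in `X` runs through them. For a closed walk of minimal area a discrete Gauss-Bonnet inequality holds: the
area is defined by an abstract calculus of filled words, without diagrams, and the inequality is proved by induction on the
area; walks with double points are cut. If the walk and the assignment of its edges to the members of the chain are minimal, then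
POLY(S - p), POLY(S - q), POLY(S - r) show that the curvature at a corner is at most the weight of the pairs there. So the sum
of the weights is at least `2`. For reducible sets see `H54/AF/Uni`.

(5) Irreducible positive semidefinite diagrams `T` with spherical triples (`H54/AP`). The Coxeter group of a positive definite
diagram is finite, because for a point `p` of the open chamber the values of the form at `w p - p`, `w ≠ 1`, are bounded below and
the orbit is bounded. A null vector of an irreducible semidefinite diagram has coefficients of one sign, so that all proper
subsets are of finite type; `T` is a circuit with labels `3` or a forest, and a forest with a label `5` has no null vector and is of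
finite type.

(6) Forests (`H54/BS`, `H2/UF`, `H2/SPH`, `H54/CT`). The vertices `P ~ Q ~ R`, where the type of `Q` separates the types of `P` and
`R`, have a common element. So it remains to consider chains of length four and chains of length six of the types `b, c, b, c, b, c`,
`b c` an edge with label `4` or `5`. In finite type this follows from reduced fractions in the Artin monoid (Garside theory) and
from the embedding of `A_T` in the Artin group of the unfolded diagram, where the chain of length six would give a closed chain of
length four without diagonal. For a positive semidefinite forest with labels at most `4` choose an edge `b c` with label `4` such
that there is no other label `4` on the side `U` of `b`; the diagram which has two copies of `U`, both connected with `c` by labels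
`3`, is a positive semidefinite forest with fewer labels `4`, and POLY for this diagram implies POLY(T) (`H54/AP/Stp`).

(7) Simply laced trees all of whose proper subsets are of finite type. Let `b c` be an edge, `U` the side of `b` and `V` the side of
`c`. (COM): if `x ∈ A_V` commutes with `y ∈ A_U` then `x ∈ A_(V - c)` or `y ∈ A_(U - b)`. From (COM) it follows that closed chains
of length four have diagonals (`H54/LK/Red`): a chain gives an equation between elements of `A_(S - b)` and `A_(S - c)`, and the
cocycles of Godelle and Paris on the cosets of the parabolic subgroups of the Coxeter group reduce it to commuting elements.
(COM) is proved with the Lawrence-Krammer representation (`H19/LK`), which is constructed here for all simply laced diagrams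
without triangles over `ℚ(t)` with `q = 1/2`, on the space with the basis `e_β`, `β` a positive root: the coefficients are defined by
recursion on the height. As in the proof of the linearity of Artin groups of finite type, the values at `t = 0` detect divisibility by
the generators in the Artin monoid. Therefore the elements of `A_U` (finite type) which preserve the functional
`sum of the coefficients at the β with β_b > 0` are in `A_(U - b)`, and the elements which fix `e_c` are in `A_(U - b)`. If `x` and
`y` commute, the comparison of `x y e_b` and `y x e_b` gives one of the two alternatives.

(8) Circuits (`H9/AT`). The generators of the circuit are mapped to the products of the generators of the infinite line (labels `3`)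
over the integers of a residue class in the interval `[-J, J]`. The relations hold up to elements with support near the ends of the
interval, so that the vertices of a closed chain have lifts in the line, for all lifts of their types, and common elements are
preserved. In the line all finite parts are of finite type, so that (6) applies. Conversely, if two vertices have a common neighbour
and lifts in one block between two lifts of this neighbour which have common elements, then they have common elements. The chains
with sum of the weights less than `2` have length four or five and are treated in this way.

(9) Free kernels (`H98/DF`, `H10/DT/Fk`). The extension property and `F_n ⋊ ℤ` give all groups `F ⋊ ℤ`, `F` a free group of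
infinite rank: `F ⋊ ℤ` is the directed colimit of HNN extensions of `F` with finitely generated associated subgroups, and these
are in the class since an isomorphism of finitely generated subgroups of `F` is, up to free factors, induced by an automorphism
of a free group of finite rank which contains `F` of finite rank as a subgroup. So `G` is in `C` if there is a homomorphism with
free kernel from `G` to a group in `C`.

(10) Classical diagrams (`H98/BR`, `H10/CA`, `H52/CA`, `H10/BT`, `H98/DT`). Type `A_n`: a subgroup of finite index embeds in the
Artin group of type `B_n`, and this group maps to the Artin group of type `A_(n-1)` with free kernel. Type `D_n` maps to type
`A_(n-1)` with free kernel (the two leaves are identified). Affine `A` embeds in type `B`. Affine `C` maps to type `B` with free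
kernel. Affine `B`: the homomorphism to the product of the group of type `B` (the leaves of the fork are identified) and the
group of type `D` (the generator at the other end is mapped to `1`) has a free kernel. Affine `D`: the kernel of the homomorphism
to the product of two groups of type `D`, which identifies the leaves of one or the other fork, embeds in a group with an explicit
presentation, whose relations form a tower; this group has two normal subgroups with free quotients and free intersection. For the
embeddings, braid automorphisms of free products of a free group and groups of order two are used, and an identity for the
elements `P⁻¹ δ ^ n` in the group of affine type `C` with involutions at the ends.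

(11) The classification (`H52/CD`, `H98/CD`, `H10/CD`, `H75/CD`): an irreducible `T` with positive semidefinite form, spherical
triples and at least three elements is a classical diagram or one of ten exceptional diagrams. If `T` contains the image of a
diagram with a positive vector on which its form is not positive, and the labels of the image are at least those of the diagram,
then `T` is this diagram (a nonnegative vector of value zero is in the kernel of the form of `T`, whose support is all of `T`).
A longest chain in `T` and its neighbours are compared with the affine diagrams and two diagrams with a label `5`. Type `H_3`:
its Artin group embeds in the Artin group of type `D_6` (unfolding, `H2/UF`).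
-/

set_option autoImplicit false

namespace Pool.Agent.Results.MP_2a547c_gt.ArtinClassicalTypes

open Pool.Agent.H98.FJ Pool.Agent.H54.CX Pool.Agent.H52.PAG Pool.Agent.H52.CD
open Pool.Agent.H54.AR (rst)

theorem result (C : (G : Type) → [Group G] → Prop) (hC : Inherits C) (hE : Extension C)
    (hcat : Cat2 C) (hGL : ∀ n : ℕ, C (GL (Fin n) ℤ))
    (hF : ∀ (n : ℕ) (φ : MulAut (FreeGroup (Fin n))), C (FreeGroup (Fin n) ⋊[zpowersHom _ φ] Multiplicative ℤ))
    (B : Type) (M : CoxeterMatrix B)
    (hM : ∀ K : Finset B, (∀ i ∈ K, ∀ j ∈ K, M i j ≠ 0) →
      (∀ L ⊆ K, L.Nonempty → L ≠ K → ∃ i ∈ L, ∃ j ∈ K, j ∉ L ∧ M i j ≠ 2) →
      C (Art (rst M K)) ∨ ∀ T ⊆ K, 3 ≤ T.card →
        (∀ L ⊆ T, L.Nonempty → L ≠ T → ∃ i ∈ L, ∃ j ∈ T, j ∉ L ∧ M i j ≠ 2) →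
        (∀ i ∈ T, ∀ j ∈ T, ∀ k ∈ T, i ≠ j → j ≠ k → i ≠ k → (1 : ℝ) < 1 / M i j + 1 / M j k + 1 / M i k) →
        (∀ x : B → ℝ, 0 ≤ ∑ i ∈ T, ∑ j ∈ T, x i * x j * -Real.cos (Real.pi / M i j)) ∧
          ∀ c : Ex, c ≠ .H3 → IsTy M T c.num c.lab → C (Art (rst M T))) :
    C (Art M) :=
  aff_mem4 hC hE hF hcat hGL B M fun K hK hirr => (hM K hK hirr).imp_right fun h T hT h3 hI ht =>
    ⟨(h T hT h3 hI ht).1, fun ⟨c, hc⟩ => by
      by_cases h1 : c = .H3
      · subst h1
        exact Pool.Agent.H75.CD.h3_mem hC hE (Pool.Agent.H98.DF.freeByZ_of_fin hC hE hF) M T hc
      · exact (h T hT h3 hI ht).2 c h1 hc⟩

end Pool.Agent.Results.MP_2a547c_gt.ArtinClassicalTypes
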