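import Pool.Agent.H92.CM.Fin

/-!
# Actions on finite-dimensional CAT(0) cube complexes and the Farrell-Jones conjecture for A-theory

Let `C` be a class of groups with the inheritance properties `Inherits` and `Extension` to which the transfer criterion `Transfer`
applies: a finitely generated group `G` is in `C` if it acts on a compact contractible controlled `N`-dominated metric space `X` such
that for every finite subset `S` of `G` there is an open `G`-invariant cover of `G × X` of order at most `N + 1` with stabilisers in
`C`, whose members are equal to or disjoint from their translates, such that every set `g S × {x}` is contained in a member. The
class of the groups satisfying the Farrell-Jones conjecture for A-theory with coefficients and finite wreath products is such a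
class. A median graph is a connected graph in which any three vertices have exactly one median; these are the 1-skeleta of the
CAT(0) cube complexes (Chepoi, Gerasimov, Roller).

Let every finitely generated subgroup `K` of `G` act by automorphisms on a median graph `X` without induced `(n + 1)`-cubes such that the
vertex stabilisers are in `C`, and let `f : K → Q` be a homomorphism to a group in `C`. The action need not be cocompact, `X` need not be
locally finite, and the subgroups `B` of `K` which fix two vertices at distance at least `k` (`FM`) need not be finite. There are
conditions on these groups only if they are contained in the kernel of `f`: we assume that the finite groups `B ≤ ker f` have at most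
`N` elements, that the commensurators of the infinite groups `B ≤ ker f` are in `C`, and that the chains of infinite groups `B ≤ ker f` in
which every member has infinite index in the next one have bounded length. We prove that then `G` is in `C`. Since `C` is closed
under subgroups the conditions on the vertex stabilisers and on the commensurators are also necessary. Special cases:

(a) Proper actions on products with symmetric spaces. Let `K` act properly on `X × M`, where `M` is a symmetric space, and let the
finite subgroups of `K` have bounded order. Let `f` be the action on `M`; the group `Q` of the isometries of `M` is linear, hence in `C`
(`MP_2a547c_gt.LinearGroups`). The groups `B ≤ ker f` which fix a vertex are finite, and the vertex stabilisers are finite-by-linear. So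
the discrete subgroups of `Aut(X) × L`, with finite subgroups of bounded order, `X` locally finite, `L` a linear Lie group, are in `C`. They
need not be lattices, and their projections to `Aut(X)` and to `L` need not be discrete.

(b) More generally (`Pool.Agent.H92.CM.proper_main`) it is enough that for every vertex `v` at most `N` elements of `ker f` fix `v`: then the
vertex stabilisers are in `C` by `Extension`. For instance `G` is in `C` if `G / N` is in `C` and `G` acts on `X` such that the action of the
normal subgroup `N` is proper, and the finite subgroups of `N` have bounded order (extensions with cubical kernel).

(c) `Q = 1`: the conditions are on all groups `B` which fix two vertices at distance at least `k`. If at most `N` elements fix two vertices at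
distance at least `k` (weakly acylindrical actions) there is no further condition; see also `Pool.Agent.H92.CX.walls` for wall spaces. The
condition on the chains holds if the groups `B` are virtually polycyclic of bounded Hirsch length.

Proof of the relative form from the case `Q = 1` (`H92/CM`). By `Extension` it suffices to treat the preimages `E` of the cyclic subgroups
of `Q`. If such a subgroup is finite, `E` contains `ker f` with finite index, and `ker f` is in `C` by the case `Q = 1`. Otherwise we have a
homomorphism `q : E → ℤ` with kernel `ker f`, and we apply the case `Q = 1` to `E`. Let `B ≤ E` fix two vertices at distance at least `k`. If
`B` is finite then `B ≤ ker q`. If `B ∩ ker q` is infinite then the commensurator of `B` is contained in that of `B ∩ ker q`. If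
`B ∩ ker q` is finite and `B` is infinite let `z ∈ B`, `q z ≠ 1`. Then `⟨z⟩` has finite index in `B`, and an element `g` of the commensurator of
`⟨z⟩` satisfies `g z ^ a g⁻¹ = z ^ b` with `a, b ≠ 0`, and `a = b` (apply `q`). So the commensurator of `B` is the directed union of
centralisers of powers of `z`; such a centraliser has a subgroup of finite index which is the product of `ℤ` and a subgroup of
`ker q`. In a chain of `2 m + 1` steps some step has finite index: `[B' : B] = [q B' : q B] [B' ∩ ker q : B ∩ ker q]`.

The case `Q = 1` (`Pool.Agent.H92.CZ.comm_main`). A more general form, with an abstract closure `pc B` in place of the
commensurability class of `B`, is `Pool.Agent.H37.CE.median_main3`; the following outline is that of its proof (`pc B` = the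
commensurability class of `B`, `o` = the class of the finite groups).

(1) Duality (`H37/MG`, `H54/MG`). The half-spaces of `X` are a partially ordered set `H` with complements, of dimension at most
`n` (pairwise crossing half-spaces give a cube); the vertices of `X` are the ultrafilters on `H` at finite distance from a base
vertex, and the distance is the number of separating half-spaces.

(2) Induction over the dimension (`H92/CX`, `H92/CY`, `H92/CZ`). We may assume that `G` is finitely generated and that every half-space
separates two translates of the base vertex. The stabiliser of a half-space `w` acts on the half-spaces which cross `w`; the vertices
of this smaller pocset lift to vertices of `H`, so the stabiliser of `w` is in `C`.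

(3) The space (`H88/CX`). `X^` is the set of the functions `ψ : H → [0, 1]` with `ψ (h*) = 1 - ψ h` and `ψ h = 0` or `ψ k = 1` for `h < k`.
It is compact, contractible and controlled `n`-dominated (homotopies which cut the coordinates at heights depending on the depth).

(4) Windows (`H54/CV`, `H37/CC`). Let `S` generate `G`. For a half-space `h` which does not contain `g` let `τ(h)` be the least `m` such that
`h` meets `g S ^ m`, and `s(h)` the sum of the `τ(k)`, `k ≥ h`. For half-spaces of depth at most `D` with `ψ > 0` which are nested
the numbers `s` differ by at least `s / D`, so one of `n + 1` thresholds `θ` is not near any `s(h)`, and the window `U(g, ψ)` of the
half-spaces of depth at most `D` with `ψ h` near `1` and `s < θ` is the same for `g` and `g s`, up to the first half-spaces. (If there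
is a fractional half-space near `g` the finite set of these is a canonical object.) The window is a finite poset of width at
most `n`, its upward closed subsets are vertices (positions). A position is saturated if below each of its next half-spaces
there is a long chain. Among `(n + 1) ^ 2` centres and `n + 1` scales there are a centre and a scale such that the region `Y(g, ψ)`
of the saturated positions near the centre is the same for `g` and `g s`, and not empty.

(5) Near symmetries and local kernels (`H25/CN`, `H94/CL`, `H94/CM`, `H37/CE`). An element `γ` of `G` is a near symmetry of `Y` at `y` if `γ y`
is a near point of `Y` and `γ` maps the configuration of radius `r` at `y` to that at `γ y`. The local kernel `Ker r y` fixes `y` and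
all half-spaces of the configuration of radius `r`; `Ker (r + t) y ≤ Ker r z` if the distance of `y` and `z` is at most `t`. If a near
symmetry has unbounded orbits then the local kernels fix two distant vertices. If `pc (Ker r y) ≠ o` for the largest radius then,
for one of `m` radii, `pc (Ker r z)` is the same for all points `z` near `y`: a canonical object. Otherwise every subgroup which
fixes two distant vertices and is virtually contained in the local kernel has at most `N` elements. Let `P = n!`. For near
symmetries `a`, `b` the words in `a ^ P`, `b ^ P` with exponent sums zero have no local half-space `w` with `e w < w` (a signed count of
half-spaces is additive), so they generate a group with a bounded orbit, which is virtually in the local kernel. So the `Q`-th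
powers of all near symmetries commute, `Q` depends on `n` and `N` only.

(6) Objects (`H1/CI`, `H54/CB`, `H37/CE`). Let `A` be the abelian group generated by the `Q`-th powers and `E(A)` the set of the elements with
a power in `A`. The elements of `A` with bounded orbits have finite order (the translation vectors have short relations). There are at
most `2 n` classes of half-spaces moved by `A`, so among `2 n + 1` increasing such groups two consecutive ones have the same `E`:
some `E(A)` is the same for all positions near `y`. Its stabiliser is in `C`: up to finite index it is a directed union of
centralisers of elements `c` with unbounded orbits, and these are up to finite index subgroups of products `Stab(w) × ℤ`.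

(7) Nets (`H25/CN`, `H59/CN`). If no near symmetry has unbounded orbits then all near symmetries at `y` generate a group with a
bounded orbit, which is in `C` (it fixes a vertex up to finite index, `H54/CW`). A local rule (Linial: the locality radius depends
on the number of labels only through the iterated logarithm `log log`, a greedy choice) selects a net of positions, so the sets
of the points whose net contains a given class of positions are wide. The order of the cover depends on `n` and `m` only (packing:
Dilworth). The constants (`H37/CE/Cst`) are polynomials in a parameter `L`, the labels are exponential in `L`.
-/

set_option autoImplicit false

namespace Pool.Agent.Results.MP_2a547c_gt.CubeComplexes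

open Pool.Agent.H98.FJ Pool.Agent.H76.GT Pool.Agent.H37.MG

theorem result (C : (G : Type) → [Group G] → Prop) (hC : Inherits C) (hT : Transfer C) (hE : Extension C)
    (G : Type) [Group G]
    (h : ∀ K : Subgroup G, K.FG → ∃ (Q : Type) (_ : Group Q) (f : K →* Q) (V : Type) (_ : MulAction K V)
      (X : SimpleGraph V) (n k N m : ℕ), C Q ∧ Median X ∧
      (∀ (g : K) (a b : V), X.Adj a b → X.Adj (g • a) (g • b)) ∧ (∀ c, ¬ IsCube X (n + 1) c) ∧
      (∀ v : V, C (MulAction.stabilizer K v)) ∧
      (∀ B : Subgroup K, FM X k B → B ≤ f.ker → (B : Set K).Finite → (B : Set K).encard ≤ N) ∧
      (∀ B : Subgroup K, FM X k B → B ≤ f.ker → (B : Set K).Infinite → C (Subgroup.Commensurable.commensurator B)) ∧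
      ∀ B : ℕ → Subgroup K, (∀ i, FM X k (B i)) → (∀ i, B i ≤ f.ker) → (∀ i, B i ≤ B (i + 1)) →
        (B 0 : Set K).Infinite → ∃ i < m, (B i).relIndex (B (i + 1)) ≠ 0) : C G :=
  Pool.Agent.H92.CM.loc_main hC hT hE G h

end Pool.Agent.Results.MP_2a547c_gt.CubeComplexes
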