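import Pool.Agent.H50.GU.Loc

/-!
# Graphs of groups and the Farrell-Jones conjecture for A-theory

Let `C` be a class of groups with the inheritance properties `Inherits`, which contains the solvable groups, is closed under
extensions in the sense of `Extension`, and to which the transfer criterion `Transfer` applies. The class of the groups satisfying
the Farrell-Jones conjecture for A-theory with coefficients and finite wreath products is such a class. Let `G` act on a tree such
that the vertex stabilisers are in `C` and the finitely generated subgroups of the edge stabilisers are virtually polycyclic (the
action need not be cocompact, the edge stabilisers need not be finitely generated). We prove a criterion: `G` is in `C` if and only if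
for every edge `v w` and every infinite virtually polycyclic subgroup `P` of its stabiliser the commensurator of `P` is in `C` or its
intersection with the stabiliser of `v` is tame. Tame groups are in `C`; subgroups and directed unions of tame groups are tame. So all
groups which act on trees with tame vertex stabilisers and locally virtually polycyclic edge stabilisers are in `C`.

A group is tame if it has a locally finite normal subgroup with quotient in a class `W` of torsion-free groups in `C` with commuting
roots (`x ^ k y = y x ^ k` implies `x y = y x`), which is closed under subgroups and under the quotients by the isolators
`{c | ∃ k ≠ 0, c ^ k ∈ A}` of the commutative subgroups `A` all of whose conjugates are contained in this set. Tame are all locally nilpotent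
groups, and the groups `A × R × S`, where `A` is a right-angled Artin group, `R` is a finite product of torsion-free groups
in `C` with commuting roots in which the virtual normalisers of the commutative subgroups `≠ 1` are locally nilpotent (`NM`; for
instance torsion-free hyperbolic groups, torsion-free groups which are hyperbolic relative to nilpotent groups, CSA groups), and `S` is
torsion-free and locally nilpotent or neat: it has a finite series of normal subgroups with factors in `ℚ ^ r` such that no element of `S`
has a root of unity `≠ 1` as an eigenvalue on a factor (every polycyclic group is virtually neat). In particular the fundamental
groups of arbitrary graphs of locally nilpotent groups are in `C`.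

Proof. (1) Colimits (`H38/AP`). `G` is a directed colimit of groups acting on trees with the same vertex stabilisers (or subgroups of
them) and finitely generated edge stabilisers, which are subgroups of the edge stabilisers of `G`: for a family of subgroups of the stabilisers of
the midpoints of the edges the universal covering tree of the graph of cosets, with the group of its automorphisms over `G`; the
fibres of the colimit are killed by enlarging the subgroups (a closed walk in the tree backtracks). By the theorem on commensurators for
virtually polycyclic edge stabilisers (`H75/CX`) it is enough that the commensurators of the infinite subgroups `P` of the edge stabilisers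
are in `C`; they act on the subtrees of the vertices fixed by subgroups of finite index of `P` (`GN/Loc`). So we may suppose that the vertex
stabilisers are tame.

(2) Torsion (`H18/TN`). The torsion elements of the vertex stabilisers form a saturated family (see (4)), the quotient `G / N` by the subgroup
`N` generated by them acts on the quotient tree with torsion-free stabilisers in `W`. The preimages of the cyclic subgroups of `G / N`
have edge stabilisers which are finite-by-cyclic; if `B` is such a group, infinite, a finitely generated group `M` which commensurates `B` centralises
an element `β ^ a` of `B` of infinite order and contains `(M ∩ N) × ⟨β ^ a⟩` with finite index, `M ∩ N` acts with finite edge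
stabilisers. So the theorem of (3) on commensurators applies.

(3) Induction over the length of chains of subgroups of infinite index in the edge stabilisers, now virtually polycyclic and torsion-free (`GN/Fin`,
`GN/Ind`). By the theorem on actions on median graphs (`H92/CZ`, see `CubeComplexes`) it is enough that the commensurators of infinite subgroups `B` of the
edge stabilisers are in `C`. The commensurator of `B` is contained in that of the Fitting subgroup of `B` and in that of its center
`A` (`GN/Fit`, `GN/Cen`). The commensurator `L` of `A` acts on the subtree of the vertices which are fixed by subgroups of finite index of `A`.

(4) Saturated families (`GN/Lift`, `Inv`, `Quo`, `Stb`). Let `I x` be the isolator of `A` in the stabiliser `L x`: a commutative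
normal subgroup of `L x`; the elements of `I x` which fix a neighbour `y` are in `I y`. Let `N` be the subgroup generated by the `I x`. There are a
subtree which meets every orbit of `N` once and lifts `n y ∈ N` of the retraction to it; so `N ∩ L x = I x`, and `L / N` acts on the
quotient tree with stabilisers `L x / I x` in `W` and edge stabilisers with shorter chains: `L / N` is in `C` by induction.

(5) Germs (`GN/Germ`, `Hom`). `c ↦ (1 / k) c ^ k ∈ A ⊗ ℚ` is an injective homomorphism on every `I x`. These homomorphisms extend to `N`, so `⁅N, N⁆` meets
the vertex stabilisers trivially. `L / ⁅N, N⁆` is in `C`, since it is an extension of `L / N` with commutative kernel, and so is `L`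
by the combination theorem for homomorphisms which are injective on the edge stabilisers (`H93/TR`).

(6) Examples. Right-angled Artin groups, torsion-free CSA groups and their products have the property `RR` (`H18/RG`): unique roots; abelian
subgroups `A` of `K` with all conjugates having powers in `A` are central in `K`; centralisers of `x ≠ 1` have homomorphisms to `ℚ` which are not `0`
at `x` (Busemann functions of trees). The class of the subgroups of `R × S` is stable (`GN/ClsProd`, `ClsQ`, `ClsX`, `WQnil`, `Neat`).
The groups which are locally in a stable class form a stable class, and so does the union of all stable classes: tameness is local
(`GN/Local`).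
-/

set_option autoImplicit false

namespace Pool.Agent.Results.MP_2a547c_gt.GraphsOfGroups

open Pool.Agent.H98.FJ Pool.Agent.H76.GT Pool.Agent.H50.GU
open Subgroup.Commensurable (commensurator)

theorem result (C : (G : Type) → [Group G] → Prop) (hC : Inherits C) (hE : Extension C) (hT : Transfer C)
    (hS : ∀ (G : Type) [Group G], Group.IsSolvable G → C G) :
    (∀ (G V : Type) [Group G] [MulAction G V] (X : SimpleGraph V), X.IsTree →
      (∀ (g : G) (v w : V), X.Adj v w → X.Adj (g • v) (g • w)) → (∀ v : V, C (MulAction.stabilizer G v)) →
      (∀ v w : V, X.Adj v w → LVP (MulAction.stabilizer G v ⊓ MulAction.stabilizer G w : Subgroup G)) →
      (C G ↔ ∀ v w : V, X.Adj v w → ∀ P : Subgroup G, P ≤ MulAction.stabilizer G v ⊓ MulAction.stabilizer G w →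
        Infinite P → (∃ n, VPn n P) →
        C (commensurator P) ∨ Tame C (commensurator P ⊓ MulAction.stabilizer G v : Subgroup G))) ∧
    (∀ (H : Type) [Group H], Tame C H → C H) ∧
    (∀ (G H : Type) [Group G] [Group H] (f : G →* H), Function.Injective f → Tame C H → Tame C G) ∧
    (∀ (H : Type) [Group H], (∀ K : Subgroup H, K.FG → Tame C K) → Tame C H) ∧
    (∀ (H : Type) [Group H], LocNil H → Tame C H) ∧
    ∀ (U ι S : Type) [Finite ι] (Γ : SimpleGraph U) (R : ι → Type) [∀ i, Group (R i)] [Group S],
      (∀ i, NM C (R i)) → ((TF S ∧ LocNil S) ∨ ∃ n, NTn n S) → Tame C (Raag Γ × (∀ i, R i) × S) :=
  ⟨fun _ _ _ _ _ hX hadj hv he => criterion hC hE hT hS hX hadj hv he, fun _ _ h => tame_mem hC hE hT hS h,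
    fun _ _ _ _ f hf h => tame_sub f hf h, fun _ _ h => tame_local hC h, fun _ _ h => tame_nil hC hS h,
    fun _ _ _ _ Γ R _ _ h1 h2 => tame_prod_all hC hE hS Γ R h1 h2⟩

end Pool.Agent.Results.MP_2a547c_gt.GraphsOfGroups
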