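import Pool.Agent.H38.PI.Main2

/-!
# Linear groups over rings with a polynomial identity and the Farrell-Jones conjecture for A-theory

Let `C` be a class of groups with the inheritance properties `Inherits` and the extension property `Extension`, which contains
the solvable groups and the groups `GL_n(ℚ)`, and to which the transfer criterion `TransferV` applies: if `G` is a finitely
generated group and `N` a number such that for every finite subset `S` of `G` there are an action of `G` on a compact contractible
controlled `N`-dominated metric space `X` and an open `G`-invariant cover of `G × X` of order at most `N + 1` with stabilisers in
`C`, whose members are equal to or disjoint from their translates, such that every set `g S × {x}` is contained in a member, then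
`G` is in `C`. The class of the groups satisfying the Farrell-Jones conjecture for A-theory with coefficients and finite wreath
products is such a class. We prove that `C` contains every group all of whose finitely generated subgroups `H` have a homomorphism
to the automorphism group of a finitely generated module over a ring `R` with a polynomial identity (`IsPI`: a multilinear identity
with integral coefficients, one of which is `1`), with a kernel `K` which is hyper-(locally nilpotent or locally finite)
(`IsHyper`): for every normal subgroup `N < K` of `H` the group `K / N` contains a normal subgroup `L ≠ 1` of `H / N` which is
locally nilpotent or locally finite. Commutative rings and the endomorphism rings of the finitely generated modules over rings with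
a polynomial identity satisfy a polynomial identity, and virtually solvable kernels are of this kind. So `C` contains the groups
`GL_n(R)` for all commutative rings and all rings with a polynomial identity `R`, all linear groups, (adjoint representation) all
subgroups of Lie groups with finitely many components, and all radical groups.

Proof. (1) Rings and modules (`H92/VS`, `H98/MO`, `H75/GR`, `H65/NT/Ring`). By `Extension` and directed unions it is enough to
treat automorphism groups of finitely generated modules over finitely generated commutative rings; with the associated primes
and the radical they are, up to solvable kernels, subgroups of finite products of groups `GL_n(F)`, `F` a field.

(2) Fields (`H25/GF`, `H88/GN`, `LN/Main`). Induction on the transcendence degree over the prime field: a finitely generated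
field of transcendence degree `m + 1` is contained in a field `F`, a finite separable extension of `k(x)`, `k` algebraically
closed of transcendence degree `m`. The discrete valuations of `F` which are trivial on `k` have residue field `k`, for every
element only finitely many are nonzero, and the elements with all valuations nonnegative are in `k`. Let `G` be a finitely
generated subgroup of `SL_n(F)` modulo the centre, `Σ` a finite set of places such that outside of it `G` fixes the standard
lattice.

(3) Algebra (`H54/NA`, `H10/RA`, `H88/GN`), by induction on `n`. The stabiliser in `PGL_n(F)` of a subalgebra of `M_n(F)` which is
not the algebra of scalars and not everything is in the class: over the algebraic closure it is, up to solvable extensions and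
finite index, a subgroup of a product of groups `PGL_k`, `k < n`. A group which fixes a lattice at every place has traces in `k`;
its span is a subalgebra as above, or it acts faithfully modulo scalars on its `k`-span, of dimension `n ^ 2` over `k`. If a
subgroup `P` fixes a lattice at every place and two non homothetic lattices at one place then its span is not `M_n(F)`.

(4) The space (`H98/RH`, `H25/DI`, `H9/XM`). Let `S` be a finite subset of `G`. There is a homomorphism of the ring generated by
the entries of the generators of `G` to a field `K = E((t))`, `E` finite, which preserves the valuations of a given finite set of
elements, for every place in `Σ`. The building of `SL_n(K)` has a compactification `X(K)`: the closure of the norms up to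
scalars, with their exterior powers, a quotient of `GL_n(O) × [0, ∞] ^ (n - 1)`; it is contractible and controlled
`(n - 1)`-dominated by truncation of the gaps. `X` is the product of these spaces over `Σ`; `G` acts by the homomorphisms.
The action is in general neither proper nor cocompact, and it need not be faithful.

(5) The core (`H75/CO`, `H2/EX`, `H52/CO`, `H76/FL`, `H92/LG`). Let `b` be a norm on `K ^ n` and `g` in `G`. The hull norm is the
largest norm which is not larger than the multiples of the norms of the lattices `L_h = h O ^ n`, `g⁻¹ h` in `S ^ M`, with the same
suprema as `b` on `L_h`. If it is comparable to the norm of `L_g`, `b` gives a periodic chain of lattices near `L_g`, after
discounting the lattices `L_h` by the length of `g⁻¹ h`: so the chain is the same for `g` and `g s`. Otherwise there is a subspace `W`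
(up to high precision) on which the hull norm is small, the chain is in `K ^ n / W`, and the algorithm goes on with `W` and the norm
`min (q ^ β_k b) |.|_L` on it. The result is a flag with chains of lattices `Y_0, .., Y_r`, and a window `f : ℤ ^ (r + 1) →` lattices,
`f(t)` the sum of the members `t_i` of the chains, for `t` in a large box which does not depend on the choices; for `g s` one
gets the same window up to a shift of bounded length. All lattices `f(t)` are obtained from the `L_h` by sums, intersections
and multiplications with powers of the uniformiser, by a bounded number of operations. These terms are read over `F` at the place,
where `G` acts; equalities between them are the same over `F` and over `K` (`H25/DI`).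

(6) Windows (`H2/WN`, `H65/NT`). Rigidity gives objects: there are finitely many families of equivariant partial functions on the
boxes of the windows, with values in `G`-sets with stabilisers in `C` (the span of the stabiliser of a box, the algebra spanned
by the powers of the elements which translate a box), such that either one of them is constant near the given position, or no
element of `G` translates the box at the position by a short vector. In the second case choose a net of such positions by a
rule of radius much smaller than the box: the labels of the positions are codes of the `G`-orbits of the boxes, two steps of
Cole and Vishkin reduce them to few colours, a greedy choice gives the net; the objects are the boxes at the points of the net.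
The order of the cover depends on `n` and `Σ` only.

(7) Kernels (`H63/RK`, `H54/GC/Tm`, `H38/GN/Adapt`, `H38/LV`). It is enough to treat `N ⋊ ℤ`, `N` locally nilpotent or locally finite
(transfinite induction, `Extension`). It is a directed colimit of HNN extensions with finitely generated base. For the torsion-free
nilpotent ones one uses minimal invariant isolated subgroups, rank functions on chains of isolated subgroups, and acylindrical
actions on trees (by the theorem on median graphs, `CubeComplexes`).

(8) Polynomial identities (`H38/PI`). A simple module over a ring with an identity of degree `d` is a vector space of dimension at
most `d` over a field which commutes with the action (Kaplansky; density theorem for a maximal ring of operators with the same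
identity). The elements of `R` which annihilate all simple `R[X]`-modules form a nil ideal `I`. So `R / I` acts faithfully on a
finitely generated module over a product of fields. A nonzero nil ideal in a ring with a polynomial identity contains a nonzero
ideal with square zero (`exists_sq`): so the matrices in `GL_n(R)` which are `1` modulo `I` form a hyperabelian normal subgroup.
The algebra of the generic matrices over `R` embeds, modulo a nil ideal, in matrices over a commutative ring; with a power of
the standard polynomial (`isPI_of_pow`) the rings `M_n(R)` and `End_R(M)`, `M` finitely generated, satisfy a polynomial identity.
-/

set_option autoImplicit false

namespace Pool.Agent.Results.MP_2a547c_gt.LinearGroups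

open Pool.Agent.H98.FJ Pool.Agent.H76.LN Pool.Agent.H38.LV Pool.Agent.H38.PI

theorem result (C : (G : Type) → [Group G] → Prop) (hC : Inherits C) (hE : Extension C) (hT : TransferV C)
    (hS : ∀ (G : Type) [Group G], Group.IsSolvable G → C G)
    (hQ : ∀ n : ℕ, C (Matrix.GeneralLinearGroup (Fin n) ℚ)) :
    (∀ (G : Type) [Group G], (∀ H : Subgroup G, H.FG → ∃ (R M : Type) (_ : Ring R) (_ : AddCommGroup M) (_ : Module R M)
      (f : H →* (M ≃ₗ[R] M)), IsPI R ∧ Module.Finite R M ∧ IsHyper f.ker) → C G) ∧
    (∀ (A : Type) [CommRing A], IsPI A) ∧
    (∀ (R M : Type) [Ring R] [AddCommGroup M] [Module R M] [Module.Finite R M], IsPI R → IsPI (Module.End R M)) ∧
    ∀ (H : Type) [Group H] (K : Subgroup H) [K.Normal], (∃ N : Subgroup K, N.FiniteIndex ∧ Group.IsSolvable N) →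
      IsHyper K :=
  ⟨fun G _ h => pi_aut hC hE hT hS hQ G h, fun A _ => isPI_comm A, fun _ M _ _ _ _ h => isPI_endR h M,
    fun _ _ K _ h => isHyper_of_virt K h⟩

end Pool.Agent.Results.MP_2a547c_gt.LinearGroups
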